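import Pool.Agent.R227.LP10

set_option autoImplicit false

/-!
# MP_86d647_an, Q1: polarization raises the negative eigenvalue of the logarithmic potential

For every bounded open set `Ω` of the plane (identified with `ℂ`) and every open half-plane `H`,
`τ̃₁(Ω) ≤ τ̃₁(P_H Ω)`.
-/

open MeasureTheory Set
open scoped RealInnerProductSpace

namespace Pool.Agent.Results.MP_86d647_an.PolarizationInequality

/-- `l` is an eigenvalue of `(𝓛_Ω u)(x) = ∫_Ω log (1/|x-y|) u(y) dy` on `L²(Ω)` -/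
def IsEigenvalue (Ω : Set ℂ) (l : ℝ) : Prop :=
  ∃ u : ℂ → ℝ, MemLp u 2 (volume.restrict Ω) ∧ ¬ (u =ᵐ[volume.restrict Ω] 0) ∧
    ∀ᵐ x ∂(volume.restrict Ω), ∫ y in Ω, Real.log (1 / ‖x - y‖) * u y = l * u x

/-- `sup` over `z₁, …, z_n ∈ E` of `∏_{i<j} |z_i - z_j|^{2/(n(n-1))}` -/
noncomputable def nthDiameter (E : Set ℂ) (n : ℕ) : ℝ :=
  sSup {r | ∃ z : Fin n → ℂ, (∀ i, z i ∈ E) ∧
    r = (∏ i, ∏ j ∈ Finset.Ioi i, ‖z i - z j‖) ^ (2 / ((n : ℝ) * (n - 1)))}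

/-- `T` is the transfinite diameter of `E` -/
def IsTransfiniteDiameter (E : Set ℂ) (T : ℝ) : Prop :=
  Filter.Tendsto (nthDiameter E) Filter.atTop (nhds T)

/-- the possible values of `τ̃₁(Ω)`: a negative eigenvalue of `𝓛_Ω`, or `0`, the latter provided that
the transfinite diameter of the closure of `Ω` is at most `1` or `𝓛_Ω` has no negative eigenvalue -/
def IsTau (Ω : Set ℂ) (τ : ℝ) : Prop :=
  (τ < 0 ∧ IsEigenvalue Ω τ) ∨
  (τ = 0 ∧ ((∃ T ≤ 1, IsTransfiniteDiameter (closure Ω) T) ∨ ∀ l < 0, ¬ IsEigenvalue Ω l))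

/-- the open half-plane with unit normal `n` -/
def halfPlane (n : ℂ) (c : ℝ) : Set ℂ := {x | c < ⟪n, x⟫}

/-- the reflection in its boundary line (`‖n‖ = 1`) -/
noncomputable def reflect (n : ℂ) (c : ℝ) (x : ℂ) : ℂ := x - (2 * (⟪n, x⟫ - c)) • n

/-- the polarization `P_H(Ω)` -/
def polarization (n : ℂ) (c : ℝ) (Ω : Set ℂ) : Set ℂ :=
  ((Ω ∪ reflect n c '' Ω) ∩ halfPlane n c) ∪ ((Ω ∩ reflect n c '' Ω) \ halfPlane n c)

theorem result (Ω : Set ℂ) (hΩ : IsOpen Ω) (hb : Bornology.IsBounded Ω) (n : ℂ) (hn : ‖n‖ = 1)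
    (c : ℝ) (τ τ' : ℝ) (hτ : IsTau Ω τ) (hτ' : IsTau (polarization n c Ω) τ') : τ ≤ τ' := by
  obtain ⟨R, hR⟩ := hb.subset_ball 0
  have hR1 : Ω ⊆ Metric.ball 0 (|R| + 1) := hR.trans (Metric.ball_subset_ball (by
    have := le_abs_self R
    linarith))
  have hRp : 0 < |R| + 1 := by positivity
  have hτ0 : τ ≤ 0 := by
    rcases hτ with ⟨h, _⟩ | ⟨h, _⟩
    · exact h.le
    · exact h.le
  rcases hτ' with ⟨h1, h2⟩ | ⟨h1, _⟩
  · let P : Pool.Agent.R227.LP.HP := ⟨n, hn, c⟩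
    have hpol : polarization n c Ω = P.pol Ω := by
      have hH : halfPlane n c = P.H := by
        ext x
        change c < ⟪n, x⟫ ↔ 0 < ⟪n, x⟫ - c
        rw [sub_pos]
      unfold polarization Pool.Agent.R227.LP.HP.pol
      rw [hH]
      rfl
    rw [hpol] at h2
    obtain ⟨l, hl, hle⟩ := Pool.Agent.R227.LP.polar P hΩ.measurableSet hR1 (μ := -τ') (by linarith)
      (by rw [neg_neg]; exact h2)
    rw [neg_neg] at hl
    rcases hτ with ⟨h3, h4⟩ | ⟨h3, h4⟩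
    · have := Pool.Agent.R227.LP.eig_unique hRp hΩ.measurableSet hR1 h3 (by linarith) h4 hle
      rw [this]; exact hl
    · exfalso
      rcases h4 with ⟨T, hT1, hT⟩ | h4
      · have := Pool.Agent.R227.LP.tdiam_gt hΩ.measurableSet hRp hR1 (by linarith) hle hT
        linarith
      · exact h4 l (by linarith) hle
  · rw [h1]; exact hτ0

end Pool.Agent.Results.MP_86d647_an.PolarizationInequality
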